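import Pool.Agent.H15.CR.Bundle

/-!
# Quadratic periods and characters: relations up to rational numbers

Let `M` be a pure motive over `ℚ` with rational coefficients, given by its realizations (`SP.Mot`), and let `t_j` be
tensors on `M` (`IsTensor`). The structure group `G = strGroup t` consists of all automorphisms which preserve every `t_j`
up to a constant. We consider motives `T` built from `M` by representations `ρ` of `G` (`IsConstruction`) and their
quadratic periods `x` (`IsQuad`): either a Hodge period `x = δ_p(T) = det(F_∞ : gr^p T_dR → gr^{w - p} T_dR)`, belonging to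
`W = H^{p, w - p}(T)`, or `x = c⁺(T) c⁻(T) / δ(T)`, if `T` has no classes of type `(p, p)`, belonging to the upper half
`W` of the Hodge filtration. Let `χ(l) = det(ρ(l) | W)`.

1. Let `Q_i` be finitely many such data. If `∏ χ_i(l)^{a_i} = 1` for all `l ∈ G` which preserve the Hodge decomposition and
satisfy `F_∞ l F_∞ = l⁻¹`, then `∏ x_i^{a_i}` is a nonzero rational number.

2. Let `M` have the Hodge types `(r + 3, r), …, (r, r + 3)`, `h^{r + 3, r} = 1` and `h^{r + 2, r + 1} = 3 m`, with a tensor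
of degree `4` such that the Hessian of the induced cubic form `N` on `H^{r + 2, r + 1}` is `c N^m` (`IsCubic`; `m = 9` for the
motives of type `E₇` and rank `56`). Then `δ_{r + 2}(M)²` is a rational multiple of `δ_{r + 3}(M)^{2 m}` and
`(c⁺(M) c⁻(M))²` is a rational multiple of `δ(M)² δ_{r + 3}(M)^{2 m + 2}`.
-/

set_option autoImplicit false

namespace Pool.Agent.Results.MP_b696eb_nt.CharacterRelations

open Module Pool.Agent.H15.SP Pool.Agent.H15.CR

theorem result :
    (∀ (U : Type) [AddCommGroup U] [Module ℂ U] [Module ℚ U] (M : Mot U) (J : Type) (k : J → ℕ)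
      (t : ∀ j, MultilinearMap ℂ (fun _ : Fin (k j) => U) ℂ), (∀ j, IsTensor M (t j)) →
      ∀ (I : Type) [Fintype I] (Q : I → QuadPeriod M (strGroup t)) (a : I → ℤ),
        (∀ l : strGroup t, IsLevi M l → IsAnti M l → ∏ i, (Q i).χ l ^ a i = 1) →
        Sim (∏ i, (Q i).x ^ a i) 1) ∧
    (∀ (U : Type) [AddCommGroup U] [Module ℂ U] [Module ℚ U] (M : Mot U) (r : ℤ) (m : ℕ)
      (t : MultilinearMap ℂ (fun _ : Fin 4 => U) ℂ), IsCubic M r m t →
      ∀ d₂ d₃ cp cm δ : ℂ, IsHodgePeriod M (r + 2) d₂ → IsHodgePeriod M (r + 3) d₃ →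
        M.IsPeriod 1 cp → M.IsPeriod (-1) cm → IsPeriodDet M δ →
        Sim (d₂ ^ 2) (d₃ ^ (2 * m)) ∧ Sim ((cp * cm) ^ 2) (δ ^ 2 * d₃ ^ (2 * m + 2))) :=
  ⟨fun _ _ _ _ M _ _ _ ht _ _ Q a h => quad_relation' M ht Q a h,
    fun _ _ _ _ _ _ _ _ h _ _ _ _ _ hd2 hd3 hcp hcm hδ =>
      ⟨cubic_hodge h hd2 hd3, cubic_deligne h hd2 hd3 hcp hcm hδ⟩⟩

end Pool.Agent.Results.MP_b696eb_nt.CharacterRelations
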