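import Pool.Agent.H97.MR.Conv
import Pool.Agent.H97.MR.Rank

set_option autoImplicit false

/-! # The multiplicative relations between Deligne's periods

Let `T_i` (`i` in a finite set) be pure motives over `ℚ` with rational coefficients (of any weights, with or without
middle classes) and let `c^±(T_i)`, `δ(T_i)` be Deligne's periods: the determinants of `T_{i,B}^± ⊗ ℂ → (T_{i,DR} /
F^∓) ⊗ ℂ` (`F^∓` the step of the Hodge filtration of dimension `d^∓`) and of `T_{i,B} ⊗ ℂ → T_{i,DR} ⊗ ℂ` in rational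
bases. Let `G` be the motivic Galois group of the `T_i` acting on the `T_{i,B}`, or any larger closed subgroup over `ℚ`
of `∏ GL(T_{i,B})` for which the following makes sense (for instance the stabiliser of some classes): `G` is normalised
by `F_∞` and contains the Hodge cocharacter, and the comparison isomorphism is a complex point of a `G`-torsor `P` over
`ℚ` of isomorphisms `T_B → T_DR` (the isomorphisms which respect the classes). `G` and `P` are given by polynomial
equations with rational coefficients; `G` need not be connected or reductive. Let `𝔤` be the complex Lie algebra of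
`G`.

Which monomials `m = ∏_i c^+(T_i)^{a_i^+} c^-(T_i)^{a_i^-} δ(T_i)^{d_i}` with integral exponents are rational, or
algebraic? We show that the answer is given by two conditions on `𝔤`:

* `∑_i (a_i^+ tr(X | T_i^+) + a_i^- tr(X | T_i^-) + d_i tr(X | T_i)) = 0` for all `X ∈ 𝔤` that commute with `F_∞`,
* `∑_i (a_i^+ tr(X | T_i / F^-) + a_i^- tr(X | T_i / F^+) + d_i tr(X | T_i)) = 0` for all `X ∈ 𝔤` that preserve the
  Hodge decompositions (here `F^±` is the step of the Hodge filtration of `T_B ⊗ ℂ`).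

(1) If they hold, then `m` is an algebraic number, of degree at most the number of the irreducible components of
`G(ℂ)`. So `m` is RATIONAL if `G` is connected.

(2) Let `G` be connected. The conditions hold if and only if the monomial has the same rational value for all
`p ∈ P(ℂ)` in the place of the comparison isomorphism for which the periods do not vanish.

(3) If the comparison isomorphism is a generic point of `P` (the period conjecture of Grothendieck), the two
conditions are also necessary for `m` to be algebraic (for all `G`, connected or not). So (1) contains all the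
multiplicative relations between the periods of Deligne which the period conjecture allows.

(4) In particular, let `G` be connected and let the monomial be `c^+(T_0)^{a_0} ∏ c^+(T_i)^{a_i}`. If Deligne's conjecture
is known for the `T_i` with `i ≠ 0`, where `L(T_i, 0) ≠ 0`, then `(L(T_0, 0) / c^+(T_0))^{a_0}` is rational if and only if
`L(T_0, 0)^{a_0} ∏ L(T_i, 0)^{a_i}` is rational. For `a_0 = 1` the former is Deligne's conjecture for `T_0`.

(5) For motives without middle classes (`F^+ = F^-`) and for monomials `∏ (c^+(T_i) / c^-(T_i))^{b_i}` the two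
conditions say only that `∑ b_i tr(F_∞ X | T_i) = 0` for `X ∈ 𝔤` commuting with `F_∞`. For example, this is true for
one motive if the Lie algebra `𝔤^{F_∞}` is perfect. For an elliptic curve over `ℚ` with complex multiplication `G` has
two components, and `c^+ / c^-` is a quadratic irrationality.

(6) THE RANK. Let `𝔨` be the Lie algebra of the `X ∈ 𝔤` that commute with `F_∞` and let `𝔩` be that of the `X ∈ 𝔤` that
preserve the Hodge decompositions. Let `r` be the dimension of `(𝔨 + 𝔩) / ([𝔨, 𝔨] + [𝔩, 𝔩])`. Then for any `r + 1` of the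
numbers `c^s(T_i)`, `δ(T_i)` there is a nontrivial monomial in them that satisfies the two conditions.

The number `r` depends only on `𝔤`, `F_∞` and the Hodge cocharacter, not on the `T_i`. So if `G` is connected, the periods
`c^±(T)`, `δ(T)` of all the (infinitely many) motives `T` that are given by representations of `G` generate a group of rank
at most `r` modulo `ℚ^*`. For `G = GL_n`, `n ≥ 2`, and `n` different Hodge types, for instance, one finds `𝔨 = 𝔤𝔩_a ⊕ 𝔤𝔩_b`
(`a + b = n`), `𝔩` is a maximal torus, `dim (𝔨 ∩ 𝔩) = n - [n / 2]` and `r = [n / 2] + 2` (the number of the fundamental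
periods of Yoshida), while `dim G = n²`.

(7) THE FINITE BASIS. Let `G` be connected. There is a set `I` of at most `r` of the `i` such that for every `i ∉ I` there
are an integer `n ≥ 1` and exponents `a_j` with the following property: if Deligne's conjecture is true for the `T_j`,
`j ∈ I`, where `L(T_j, 0) ≠ 0`, then `(L(T_i, 0) / c^+(T_i))^n` is rational if and only if `L(T_i, 0)^n ∏_{j ∈ I}
L(T_j, 0)^{a_j}` is rational. So (up to roots of rational numbers) Deligne's conjecture for all these motives is Deligne's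
conjecture for at most `r` of them together with statements which concern only the `L`-values.

The periods do not vanish, which we show, too (for arbitrary steps of the filtration of the right dimension).

The proofs. (1) The monomial is the value `f(I)` of a rational function `f` on `P` at the comparison isomorphism `I`.
For a derivation `D` of `ℂ` and `p ∈ P(ℂ)` the map `x ↦ x + ε D(x)` gives `X = p⁻¹ D(p) ∈ 𝔤`. If `X = X_F + X_P` with
`X_F ∈ 𝔤^{F_∞}` and `X_P ∈ 𝔤` that preserves the filtration `p⁻¹ (F)`, then `D(f(p)) / f(p)` is the sum of the two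
traces for `X_F` and `X_P`, so it is zero. Such a decomposition exists for `p = I` by the theory of weights of the Hodge
cocharacter and so for the conjugates `σ(I)`, `σ ∈ Aut(ℂ)`. It is an open condition on `p`, so it is true for the generic
points `p` (over a sufficiently large countable field which contains the algebraic numbers) of each irreducible set
`Z ⊆ P(ℂ)` which contains some `σ(I)`. It follows that `f(p)` is algebraic and that `f` is constant on `Z`. As
`σ(m) = f(σ(I))`, the number `m` has at most as many conjugates as there are components. (2), (3): for `X` as in the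
conditions `exp(t X)` is in `G(ℂ)`, and `f(I exp(t X)) = f(I) exp(Λ t)` where `Λ` is the sum of the traces. (6): as the
periods do not vanish, `X ∈ 𝔨 ∩ 𝔩` has the same trace on `T^s` and on `T / F`. So the two traces define a linear form on
`(𝔨 + 𝔩) / ([𝔨, 𝔨] + [𝔩, 𝔩])` for each symbol, and for `r + 1` symbols the two conditions have a solution in complex
numbers. The space of these solutions is stable under `Aut(ℂ)`, although `𝔩` is not: it can be described on the de Rham
side. So it contains an integral vector. -/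

namespace Pool.Agent.Results.MP_b696eb_nt.MonomialRelations

open Matrix Pool.Agent.X33.DP Pool.Agent.H97.MR

variable {ι : Type}

/-- the ranks of the motives `T_i` -/
abbrev ranks (T : ι → PMot ℚ ℂ) : ι → ℕ := fun i => (T i).N

/-- the `A`-valued points of the closed subscheme over `ℚ` of `∏ GL_{N_i}` with the equations `f = 0`, `f ∈ J`, where the
`f` are polynomials with rational coefficients in the entries of the matrices and of their inverses -/
def Points {N : ι → ℕ} (J : Set (MvPolynomial (Co N) ℚ)) (A : Type) [CommRing A] [Algebra ℚ A] : Set (GLs N A) :=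
  {g | ∀ f ∈ J, value f g = 0}

/-- The equations `J` define a closed subgroup `G` over `ℚ` of `∏ GL(T_{i,B})` and the equations `K` define a closed
subscheme `P` over `ℚ` of the scheme of isomorphisms `T_{i,B} → T_{i,DR}`, a torsor under `G`. The comparison isomorphism
is in `P(ℂ)`; `G` is stable under conjugation by `F_∞`; and `G(ℂ)` contains the elements that act on the Hodge components
`H^{p,q}` of all the `T_i` by `z^p`. -/
structure IsPeriodGroup (T : ι → PMot ℚ ℂ) (J K : Set (MvPolynomial (Co (ranks T)) ℚ)) : Prop where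
  one_mem : ∀ (A : Type) [CommRing A] [Algebra ℚ A], 1 ∈ Points J A
  mul_inv_mem : ∀ (A : Type) [CommRing A] [Algebra ℚ A], ∀ g ∈ Points J A, ∀ g' ∈ Points J A, g * g'⁻¹ ∈ Points J A
  act : ∀ (A : Type) [CommRing A] [Algebra ℚ A], ∀ p ∈ Points K A, ∀ g ∈ Points J A, p * g ∈ Points K A
  torsor : ∀ (A : Type) [CommRing A] [Algebra ℚ A], ∀ p ∈ Points K A, ∀ q ∈ Points K A, p⁻¹ * q ∈ Points J A
  comparison : ∀ g : GLs (ranks T) ℂ, (∀ i, (g i : Matrix (Fin (T i).N) (Fin (T i).N) ℂ) = (T i).P) → g ∈ Points K ℂ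
  frobenius : ∀ (A : Type) [CommRing A] [Algebra ℚ A] (f : GLs (ranks T) A),
    (∀ i, (f i : Matrix (Fin (T i).N) (Fin (T i).N) A) = (T i).F.map (algebraMap ℚ A)) →
    ∀ g ∈ Points J A, f * g * f ∈ Points J A
  cocharacter : ∀ (z : ℂˣ) (g : GLs (ranks T) ℂ),
    (∀ i p, ∀ x ∈ (T i).H p, (g i : Matrix (Fin (T i).N) (Fin (T i).N) ℂ).mulVec x = ((z ^ p : ℂˣ) : ℂ) • x) →
    g ∈ Points J ℂ

/-- rational bases of `T_B^s` (the columns of `B`) and of `T_DR / F^p` (`Q` is the quotient map), of the same size -/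
structure Bases (T : PMot ℚ ℂ) (s : ℤˣ) (p : ℤ) where
  /-- the dimension -/
  n : ℕ
  /-- the basis of `T_B^s` -/
  B : Matrix (Fin T.N) (Fin n) ℚ
  /-- the quotient map -/
  Q : Matrix (Fin n) (Fin T.N) ℚ
  injective : Function.Injective B.mulVec
  range : LinearMap.range B.mulVecLin = T.eig s
  surjective : Function.Surjective Q.mulVec
  ker : LinearMap.ker Q.mulVecLin = T.fil p

/-- the determinant of `T_B^s ⊗ ℂ → (T_DR / F^p) ⊗ ℂ` for the isomorphism `M` of `T_B ⊗ ℂ` and `T_DR ⊗ ℂ`; for the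
comparison isomorphism `M = T.P` and the right step `F^p` it is the period `c^s(T)` -/
noncomputable def Bases.period {T : PMot ℚ ℂ} {s : ℤˣ} {p : ℤ} (b : Bases T s p) (M : Matrix (Fin T.N) (Fin T.N) ℂ) :
    ℂ :=
  (b.Q.map (algebraMap ℚ ℂ) * M * b.B.map (algebraMap ℚ ℂ)).det

/-- the monomial `∏_i (∏_s c^s(T_i)^{a_i^s}) δ(T_i)^{d_i}` for the isomorphisms `M i` of `T_{i,B} ⊗ ℂ` and
`T_{i,DR} ⊗ ℂ` -/
noncomputable def monomial [Fintype ι] {T : ι → PMot ℚ ℂ} {p : ι → ℤˣ → ℤ} (b : ∀ i s, Bases (T i) s (p i s))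
    (a : ι → ℤˣ → ℤ) (d : ι → ℤ) (M : ∀ i, Matrix (Fin (T i).N) (Fin (T i).N) ℂ) : ℂ :=
  ∏ i, ((∏ s, (b i s).period (M i) ^ a i s) * (M i).det ^ d i)

/-- the trace of `X` on `T^s ⊗ ℂ` (`s = ±1`), if `X` commutes with `F_∞`: the trace of `X (1 + s F_∞) / 2` -/
noncomputable def traceEig (T : PMot ℚ ℂ) (s : ℤˣ) (X : Matrix (Fin T.N) (Fin T.N) ℂ) : ℂ :=
  (X * ((1 / 2 : ℚ) • (1 + ((s : ℤ) : ℚ) • T.F)).map (algebraMap ℚ ℂ)).trace

/-- The family of complex matrices `X` is in the Lie algebra of `G`: `1 + ε X` is in `G(ℂ[ε])`. -/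
def InLie {N : ι → ℕ} (J : Set (MvPolynomial (Co N) ℚ)) (X : ∀ i, Matrix (Fin (N i)) (Fin (N i)) ℂ) : Prop :=
  ∀ g : GLs N (DualNumber ℂ), (∀ i, (g i : Matrix (Fin (N i)) (Fin (N i)) (DualNumber ℂ)) =
    1 + (DualNumber.eps : DualNumber ℂ) • (X i).map TrivSqZeroExt.inl) → g ∈ Points J (DualNumber ℂ)

/-- `X` commutes with `F_∞` -/
def CommutesWithFrobenius (T : ι → PMot ℚ ℂ) (X : ∀ i, Matrix (Fin (T i).N) (Fin (T i).N) ℂ) : Prop :=
  ∀ i, X i * (T i).F.map (algebraMap ℚ ℂ) = (T i).F.map (algebraMap ℚ ℂ) * X i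

/-- `X` preserves the Hodge decompositions -/
def PreservesHodge (T : ι → PMot ℚ ℂ) (X : ∀ i, Matrix (Fin (T i).N) (Fin (T i).N) ℂ) : Prop :=
  ∀ i q, ∀ x ∈ (T i).H q, (X i).mulVec x ∈ (T i).H q

/-- The first condition: `∑_i (∑_s a_i^s tr(X | T_i^s) + d_i tr(X | T_i)) = 0` for all `X` in the Lie algebra of `G` that
commute with `F_∞`. -/
def BettiCondition [Fintype ι] (T : ι → PMot ℚ ℂ) (J : Set (MvPolynomial (Co (ranks T)) ℚ)) (a : ι → ℤˣ → ℤ)
    (d : ι → ℤ) : Prop :=
  ∀ X, InLie J X → CommutesWithFrobenius T X →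
    ∑ i, (∑ s, a i s * traceEig (T i) s (X i) + d i * (X i).trace) = 0

/-- The second condition: `∑_i (∑_s a_i^s tr(X | T_i / F^{p(i, s)}) + d_i tr(X | T_i)) = 0` for all `X` in the Lie algebra of
`G` that preserve the Hodge decompositions; `π i s` is the projection to `⊕_{q < p(i, s)} H q`, a complement of the
step `F^{p(i, s)}` of the Hodge filtration. -/
def DeRhamCondition [Fintype ι] (T : ι → PMot ℚ ℂ) (J : Set (MvPolynomial (Co (ranks T)) ℚ)) (p : ι → ℤˣ → ℤ)
    (a : ι → ℤˣ → ℤ) (d : ι → ℤ) : Prop :=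
  ∀ π : ∀ i, ℤˣ → Matrix (Fin (T i).N) (Fin (T i).N) ℂ, (∀ i s, IsLowProj (T i) (p i s) (π i s)) →
    ∀ X, InLie J X → PreservesHodge T X → ∑ i, (∑ s, a i s * (π i s * X i).trace + d i * (X i).trace) = 0

/-- the two conditions on the Lie algebra of `G` for the exponents `a`, `d` -/
def TraceConditions [Fintype ι] (T : ι → PMot ℚ ℂ) (J : Set (MvPolynomial (Co (ranks T)) ℚ)) (p : ι → ℤˣ → ℤ)
    (a : ι → ℤˣ → ℤ) (d : ι → ℤ) : Prop :=
  BettiCondition T J a d ∧ DeRhamCondition T J p a d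

/-- the dimension of the span of `A` minus the dimension of the span of `D` -/
noncomputable def dimDiff {V : Type} [AddCommGroup V] [Module ℂ V] (A D : Set V) : ℕ :=
  Module.finrank ℂ (Submodule.span ℂ A) - Module.finrank ℂ (Submodule.span ℂ D)

/-- The number `r`: the dimension of `(𝔨 + 𝔩) / ([𝔨, 𝔨] + [𝔩, 𝔩])`, where `𝔨` (`𝔩`) is the set of the elements of the Lie
algebra of `G` that commute with `F_∞` (that preserve the Hodge decompositions). -/
noncomputable def rank (T : ι → PMot ℚ ℂ) (J : Set (MvPolynomial (Co (ranks T)) ℚ)) : ℕ :=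
  dimDiff (V := ∀ i, Matrix (Fin (T i).N) (Fin (T i).N) ℂ)
    {X | InLie J X ∧ (CommutesWithFrobenius T X ∨ PreservesHodge T X)}
    {Z | ∃ X Y, InLie J X ∧ InLie J Y ∧
      (CommutesWithFrobenius T X ∧ CommutesWithFrobenius T Y ∨ PreservesHodge T X ∧ PreservesHodge T Y) ∧
      Z = fun i => X i * Y i - Y i * X i}

/-- The set `S` of complex points is the union of `r` irreducible sets (for `S = G(ℂ)` and `r = 1`: `G` is connected). -/
def IsUnionOfIrreducible {N : ι → ℕ} (S : Set (GLs N ℂ)) (r : ℕ) : Prop :=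
  ∃ Z : Fin r → Set (GLs N ℂ), (∀ j, IsIrr (Z j)) ∧ S = ⋃ j, Z j

/-- The comparison isomorphism is a generic point of `P`: a polynomial with rational coefficients in the entries of the
matrices and of their inverses which vanishes for the comparison isomorphism vanishes on `P(ℂ)`. -/
def IsGeneric (T : ι → PMot ℚ ℂ) (K : Set (MvPolynomial (Co (ranks T)) ℚ)) : Prop :=
  ∀ g : GLs (ranks T) ℂ, (∀ i, (g i : Matrix (Fin (T i).N) (Fin (T i).N) ℂ) = (T i).P) →
    ∀ f : MvPolynomial (Co (ranks T)) ℚ, value f g = 0 → ∀ q ∈ Points K ℂ, value f q = 0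

/-- `z` is a rational number -/
def IsRat (z : ℂ) : Prop := ∃ q : ℚ, z = q

/-- `G` is connected -/
def IsConn {N : ι → ℕ} (J : Set (MvPolynomial (Co N) ℚ)) : Prop := IsUnionOfIrreducible (Points J ℂ) 1

/-- the period `c^+(T_i)` -/
noncomputable def cPlus {T : ι → PMot ℚ ℂ} {p : ι → ℤˣ → ℤ} (b : ∀ i s, Bases (T i) s (p i s)) (i : ι) : ℂ :=
  (b i 1).period (T i).P

/-- Deligne's conjecture is true for `T_i` and `L(T_i, 0) ≠ 0`, where `L i` is the value `L(T_i, 0)`. -/
def DeligneHolds {T : ι → PMot ℚ ℂ} {p : ι → ℤˣ → ℤ} (b : ∀ i s, Bases (T i) s (p i s)) (L : ι → ℂ) (i : ι) : Prop :=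
  L i ≠ 0 ∧ ∃ e : ℚ, L i = e * cPlus b i

theorem value_bcs {N : ι → ℕ} {A B : Type} [CommRing A] [Algebra ℚ A] [CommRing B] [Algebra ℚ B] (φ : A →ₐ[ℚ] B)
    (g : GLs N A) (f : MvPolynomial (Co N) ℚ) : value f (bcs (φ : A →+* B) g) = φ (value f g) := by
  have h1 : coords (bcs (φ : A →+* B) g) = fun c => φ (coords g c) := by
    funext c
    rcases c with ⟨i, x, y⟩ | ⟨i, x, y⟩
    · rfl
    · have h2 : (bcs (φ : A →+* B) g i)⁻¹ = Matrix.GeneralLinearGroup.map (φ : A →+* B) (g i)⁻¹ :=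
        (map_inv _ _).symm
      show (((bcs (φ : A →+* B) g i)⁻¹ : GL (Fin (N i)) B) : Matrix (Fin (N i)) (Fin (N i)) B) x y = _
      rw [h2]
      rfl
  unfold value
  rw [h1]
  exact (MvPolynomial.comp_aeval_apply (coords g) φ f).symm

/-- the functor of points of `G` -/
def grp {N : ι → ℕ} {J : Set (MvPolynomial (Co N) ℚ)}
    (h1 : ∀ (A : Type) [CommRing A] [Algebra ℚ A], 1 ∈ Points J A)
    (h2 : ∀ (A : Type) [CommRing A] [Algebra ℚ A], ∀ g ∈ Points J A, ∀ g' ∈ Points J A, g * g'⁻¹ ∈ Points J A) :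
    SubgroupFunctor N where
  pts A _ _ :=
    { carrier := Points J A
      one_mem' := h1 A
      inv_mem' := fun {g} hg => by
        have := h2 A 1 (h1 A) g hg
        rwa [one_mul] at this
      mul_mem' := fun {g g'} hg hg' => by
        have h3 := h2 A 1 (h1 A) g' hg'
        rw [one_mul] at h3
        have h4 := h2 A g hg _ h3
        rwa [inv_inv] at h4 }
  map_mem A B _ _ _ _ φ g hg := fun f hf => by
    rw [value_bcs, show value f g = 0 from hg f hf, map_zero]

/-- the functor of points of `P` -/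
def tor {N : ι → ℕ} (K : Set (MvPolynomial (Co N) ℚ)) : TorsorFunctor N where
  pts A _ _ := Points K A
  map_mem A B _ _ _ _ φ g hg := fun f hf => by
    rw [value_bcs, show value f g = 0 from hg f hf, map_zero]

theorem parts [Fintype ι] (T : ι → PMot ℚ ℂ) (J K : Set (MvPolynomial (Co (ranks T)) ℚ)) (h : IsPeriodGroup T J K)
    (p : ι → ℤˣ → ℤ) (b : ∀ i s, Bases (T i) s (p i s)) (a : ι → ℤˣ → ℤ) (d : ι → ℤ) :
    (∀ i s, (b i s).period (T i).P ≠ 0) ∧
    (TraceConditions T J p a d →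
      IsAlgebraic ℚ (monomial b a d fun i => (T i).P) ∧
      (∀ r, IsUnionOfIrreducible (Points J ℂ) r → (minpoly ℚ (monomial b a d fun i => (T i).P)).natDegree ≤ r) ∧
      (IsUnionOfIrreducible (Points J ℂ) 1 → ∃ q : ℚ, (monomial b a d fun i => (T i).P) = q)) ∧
    (IsUnionOfIrreducible (Points J ℂ) 1 → (TraceConditions T J p a d ↔
      ∃ q : ℚ, ∀ g ∈ Points K ℂ, (∀ i s, (b i s).period (g i) ≠ 0) → (monomial b a d fun i => g i) = q)) ∧
    (IsGeneric T K → (TraceConditions T J p a d ↔ IsAlgebraic ℚ (monomial b a d fun i => (T i).P))) ∧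
    (IsUnionOfIrreducible (Points J ℂ) 1 → TraceConditions T J p a d → (∀ i, a i (-1) = 0) → (∀ i, d i = 0) →
      ∀ i₀, ∀ L : ι → ℂ, (∀ i, i ≠ i₀ → L i ≠ 0 ∧ ∃ e : ℚ, L i = e * (b i 1).period (T i).P) →
        ((∃ e : ℚ, (L i₀ / (b i₀ 1).period (T i₀).P) ^ a i₀ 1 = e) ↔ ∃ e : ℚ, ∏ i, L i ^ a i 1 = e)) ∧
    ((∀ i, p i (-1) = p i 1) → (∀ i, a i (-1) = -a i 1) → (∀ i, d i = 0) →
      (TraceConditions T J p a d ↔ ∀ X, InLie J X → CommutesWithFrobenius T X →
        ∑ i, a i 1 * ((T i).F.map (algebraMap ℚ ℂ) * X i).trace = 0)) := by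
  classical
  let G : SubgroupFunctor (ranks T) := grp h.one_mem h.mul_inv_mem
  let P : TorsorFunctor (ranks T) := tor K
  have inLie_iff : ∀ X : Mats (ranks T), InLie J X ↔ X ∈ G.lie := by
    intro X
    constructor
    · intro h
      exact h (ogs X) fun i => rfl
    · intro h g hg
      have : g = ogs X := by
        funext i
        apply Units.ext
        exact hg i
      rw [this]
      exact h
  have h' : IsGrp T G P :=
    ⟨h.torsor, h.comparison _ fun i => rfl, fun A _ _ g hg => h.frobenius A _ (fun i => rfl) g hg, h.cocharacter⟩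
  have hclG : IsClosedQ (N := ranks T) fun A _ _ => (G.pts A : Set (GLs (ranks T) A)) := ⟨J, fun A _ _ g => Iff.rfl⟩
  have hcl : ∃ J : Set (MvPolynomial (Co (rks T)) ℚ), ∀ g : GLs (rks T) ℂ, g ∈ P.pts ℂ ↔ ∀ f ∈ J, value f g = 0 :=
    ⟨K, fun g => Iff.rfl⟩
  have hPG : ∀ p ∈ P.pts ℂ, ∀ g ∈ G.pts ℂ, p * g ∈ P.pts ℂ := h.act ℂ
  have units : ∀ f : ℤˣ → ℂ, ∏ s, f s = f 1 * f (-1) := by
    intro f
    have : (Finset.univ : Finset ℤˣ) = {1, -1} := by decide
    rw [this, Finset.prod_pair (by decide)]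
  have units' : ∀ f : ℤˣ → ℂ, ∑ s, f s = f 1 + f (-1) := by
    intro f
    have : (Finset.univ : Finset ℤˣ) = {1, -1} := by decide
    rw [this, Finset.sum_pair (by decide)]
  have hc : ∀ i s, IsStepPeriod (T i) s (p i s) ((b i s).period (T i).P) := fun i s =>
    ⟨(b i s).n, (b i s).B, (b i s).Q, (b i s).injective, (b i s).range, (b i s).surjective, (b i s).ker, rfl⟩
  have hne : ∀ i s, (b i s).period (T i).P ≠ 0 := fun i s => (hc i s).ne_zero
  obtain ⟨π, hπ⟩ : ∃ π : ∀ i, ℤˣ → Matrix (Fin (T i).N) (Fin (T i).N) ℂ, ∀ i s, IsLowProj (T i) (p i s) (π i s) := by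
    choose π hπ using fun i (s : ℤˣ) => exists_lowProj (T i) (p i s)
    exact ⟨π, hπ⟩
  have hA : ∀ hBD : TraceConditions T J p a d,
      (∀ X ∈ G.lie, (∀ i, X i * rc (T i).F = rc (T i).F * X i) →
        ∑ i, (∑ s, a i s * (X i * rc (eproj (T i) s)).trace + d i * (X i).trace) = 0) ∧
      (∀ X ∈ G.lie, (∀ i q, ∀ x ∈ (T i).H q, (X i).mulVec x ∈ (T i).H q) →
        ∑ i, (∑ s, a i s * (π i s * X i).trace + d i * (X i).trace) = 0) := fun hBD =>
    ⟨fun X hX hXF => hBD.1 X ((inLie_iff X).2 hX) hXF, fun X hX hXH => hBD.2 π hπ X ((inLie_iff X).2 hX) hXH⟩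
  -- rationality for connected groups
  have hrat : TraceConditions T J p a d →
      IsIntegral ℚ (monomial b a d fun i => (T i).P) ∧
      (∀ r, IsUnionOfIrreducible (Points J ℂ) r → (minpoly ℚ (monomial b a d fun i => (T i).P)).natDegree ≤ r) ∧
      (IsUnionOfIrreducible (Points J ℂ) 1 → ∃ q : ℚ, (monomial b a d fun i => (T i).P) = q) := by
    intro hBD
    have h1 := main h' a d p π hπ (hA hBD).1 (hA hBD).2 _ hc
    have h2 : ∀ r, IsUnionOfIrreducible (Points J ℂ) r →
        (minpoly ℚ (monomial b a d fun i => (T i).P)).natDegree ≤ r := by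
      rintro r ⟨Z, hZ, hGZ⟩
      exact (degree_le h' hcl r Z hZ hGZ hPG a d p π hπ (hA hBD).1 (hA hBD).2 _ hc).2
    refine ⟨h1.isIntegral, h2, fun h3 => ?_⟩
    have h4 := le_antisymm (h2 1 h3) (minpoly.natDegree_pos (A := ℚ) h1.isIntegral)
    obtain ⟨q, hq⟩ := minpoly.natDegree_eq_one_iff.1 h4
    exact ⟨q, by rw [← hq]; simp⟩
  have hconv : ∀ S : Set ℂ, S.Finite → (∀ g ∈ P.pts ℂ, (∀ i s, (b i s).period (g i) ≠ 0) →
      (monomial b a d fun i => g i) ∈ S) → TraceConditions T J p a d := by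
    intro S hS hval
    have key : ∀ π : ∀ i, ℤˣ → Matrix (Fin (T i).N) (Fin (T i).N) ℂ,
        (∀ i s, IsLowProj (T i) (p i s) (π i s)) → _ := fun π hπ =>
      conv h' hclG hPG a d p π hπ (fun i s => (b i s).injective) (fun i s => (b i s).range)
        (fun i s => (b i s).surjective) (fun i s => (b i s).ker) hS hval
    exact ⟨fun X hX hXF => (key π hπ).1 X ((inLie_iff X).1 hX) hXF,
      fun π hπ X hX hXH => (key π hπ).2 X ((inLie_iff X).1 hX) hXH⟩
  refine ⟨hne, fun hBD => ?_, fun hirr => ⟨fun hBD => ?_, ?_⟩, fun hgen => ⟨fun hBD => ?_, ?_⟩, ?_, ?_⟩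
  · obtain ⟨h1, h2, h3⟩ := hrat hBD
    exact ⟨h1.isAlgebraic, h2, h3⟩
  · -- constancy
    obtain ⟨q, hq⟩ := (hrat hBD).2.2 hirr
    obtain ⟨Z, hZ, hGZ⟩ := hirr
    choose R hR using fun i s => exists_right_inv' (b i s).surjective
    have hGZ' : (G.pts ℂ : Set (GLs (ranks T) ℂ)) = Z 0 := by
      show Points J ℂ = Z 0
      rw [hGZ]
      ext x
      rw [Set.mem_iUnion]
      exact ⟨fun ⟨j, hj⟩ => by rwa [Subsingleton.elim 0 j], fun hx => ⟨0, hx⟩⟩
    have hZP : (fun g => comps T * g) '' Z 0 ⊆ P.pts ℂ := by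
      rintro _ ⟨g, hg, rfl⟩
      rw [← hGZ'] at hg
      exact hPG _ h'.comp _ hg
    have hPZ : ∀ g ∈ P.pts ℂ, g ∈ (fun g => comps T * g) '' Z 0 := by
      intro g hg
      refine ⟨(comps T)⁻¹ * g, ?_, mul_inv_cancel_left _ _⟩
      rw [← hGZ']
      exact h'.torsor ℂ _ h'.comp _ hg
    have hvne : ∀ g : GLs (ranks T) ℂ, (∀ i s, (b i s).period (g i) ≠ 0) →
        npart (T := T) (fun i s => (-a i s).toNat) (fun i => (-d i).toNat)
          (fun i s => perf (b i s).Q (b i s).B) g ≠ 0 := by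
      intro g hg
      unfold npart
      refine Finset.prod_ne_zero_iff.2 fun i _ => mul_ne_zero (Finset.prod_ne_zero_iff.2 fun s _ => ?_) ?_
      · exact pow_ne_zero _ (hg i s)
      · exact pow_ne_zero _ ((Matrix.isUnit_iff_isUnit_det _).1 (g i).isUnit).ne_zero
    obtain ⟨α, _, hα⟩ := const_of_good h' hcl a d p π hπ (hA hBD).1 (hA hBD).2 (fun i s => (b i s).injective)
      (fun i s => (b i s).range) (fun i s => (b i s).ker) hR (good_comps h') ((hZ 0).translate (comps T)) hZP
      (hPZ _ h'.comp) (hvne _ hne)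
    have hmono : ∀ g : GLs (ranks T) ℂ, mono (T := T) a d (fun i s => perf (b i s).Q (b i s).B) g =
        monomial b a d fun i => (g i : Matrix (Fin (T i).N) (Fin (T i).N) ℂ) := fun g => rfl
    have hcomp : (fun i => (comps T i : Matrix (Fin (T i).N) (Fin (T i).N) ℂ)) = fun i => (T i).P := rfl
    have h1 := hα (comps T) (hPZ _ h'.comp) (hvne _ hne)
    rw [hmono, hcomp, hq] at h1
    refine ⟨q, fun g hg hgne => ?_⟩
    rw [h1, ← hmono]
    exact hα g (hPZ g hg) (hvne g hgne)
  · rintro ⟨q, hq⟩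
    exact hconv {(q : ℂ)} (Set.finite_singleton _) fun g hg hgne => hq g hg hgne
  · exact (hrat hBD).1.isAlgebraic
  · intro halg
    obtain ⟨S, hS, hval⟩ := finite_of_generic (T := T) (P := P) (hgen _ fun i => rfl) a d
      (Q := fun i s => (b i s).Q) (B := fun i s => (b i s).B) hne halg
    exact hconv S hS hval
  · intro hirr hBD ha hd i₀ L hL
    obtain ⟨m, hm⟩ := (hrat hBD).2.2 hirr
    have h1 : (monomial b a d fun i => (T i).P) = ∏ i, (b i 1).period (T i).P ^ a i 1 := by
      refine Finset.prod_congr rfl fun i _ => ?_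
      rw [units, ha, hd, _root_.zpow_zero, _root_.zpow_zero, mul_one, mul_one]
    rw [h1] at hm
    choose! e he using fun i (hi : i ≠ i₀) => (hL i hi).2
    have hene : ∀ i, i ≠ i₀ → e i ≠ 0 := by
      intro i hi h0
      have h2 := (hL i hi).1
      rw [he i hi, h0, Rat.cast_zero, zero_mul] at h2
      exact h2 rfl
    set c : ι → ℂ := fun i => (b i 1).period (T i).P with hcdef
    have hm0 : m ≠ 0 := by
      intro h0
      rw [h0, Rat.cast_zero] at hm
      exact Finset.prod_ne_zero_iff.2 (fun i _ => zpow_ne_zero _ (hne i 1)) hm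
    set E : ℚ := ∏ i ∈ Finset.univ.erase i₀, e i ^ a i 1 with hE
    have hE0 : E ≠ 0 := Finset.prod_ne_zero_iff.2 fun i hi => zpow_ne_zero _ (hene i (Finset.ne_of_mem_erase hi))
    have h3 : ∏ i, L i ^ a i 1 = (L i₀ / c i₀) ^ a i₀ 1 * ((E * m : ℚ) : ℂ) := by
      rw [Rat.cast_mul, ← hm, ← Finset.mul_prod_erase _ _ (Finset.mem_univ i₀),
        ← Finset.mul_prod_erase _ (fun i => (b i 1).period (T i).P ^ a i 1) (Finset.mem_univ i₀)]
      have h4 : ∏ i ∈ Finset.univ.erase i₀, L i ^ a i 1 =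
          (E : ℂ) * ∏ i ∈ Finset.univ.erase i₀, (b i 1).period (T i).P ^ a i 1 := by
        rw [hE]
        push_cast
        rw [← Finset.prod_mul_distrib]
        refine Finset.prod_congr rfl fun i hi => ?_
        rw [he i (Finset.ne_of_mem_erase hi), _root_.mul_zpow]
      have h5 : L i₀ ^ a i₀ 1 = (L i₀ / c i₀) ^ a i₀ 1 * c i₀ ^ a i₀ 1 := by
        rw [← _root_.mul_zpow, div_mul_cancel₀ _ (hne i₀ 1)]
      rw [h4, h5]
      simp only [hcdef]
      ring
    have hEm : ((E * m : ℚ) : ℂ) ≠ 0 := Rat.cast_ne_zero.2 (mul_ne_zero hE0 hm0)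
    constructor
    · rintro ⟨f, hf⟩
      refine ⟨f * (E * m), ?_⟩
      rw [h3, hf, ← Rat.cast_mul]
    · rintro ⟨f, hf⟩
      refine ⟨f / (E * m), ?_⟩
      rw [h3] at hf
      rw [Rat.cast_div, ← hf]
      exact (mul_div_cancel_right₀ _ hEm).symm
  · -- the ratios
    intro hp ha hd
    have hB : ∀ X : Mats (ranks T), ∑ i, (∑ s, a i s * traceEig (T i) s (X i) + d i * (X i).trace) =
        ∑ i, a i 1 * ((T i).F.map (algebraMap ℚ ℂ) * X i).trace := by
      intro X
      refine Finset.sum_congr rfl fun i _ => ?_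
      rw [units', ha, hd]
      have h2 : rc (eproj (T i) 1) - rc (eproj (T i) (-1)) = rc (T i).F := by
        rw [← rc_sub]
        congr 1
        unfold eproj
        rw [← smul_sub, Units.val_neg, Units.val_one, Int.cast_neg, Int.cast_one, neg_one_smul, one_smul,
          show (1 + (T i).F - (1 + -(T i).F)) = (2 : ℚ) • (T i).F by rw [two_smul]; abel, smul_smul]
        norm_num
      have h3 : (rc (T i).F * X i).trace = (X i * rc (eproj (T i) 1)).trace - (X i * rc (eproj (T i) (-1))).trace := by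
        rw [Matrix.trace_mul_comm, ← h2, Matrix.mul_sub, Matrix.trace_sub]
      show _ = (a i 1 : ℂ) * (rc (T i).F * X i).trace
      rw [h3]
      unfold traceEig rc eproj
      push_cast
      ring
    refine ⟨fun hBD X hX hXF => ?_, fun hcond => ⟨fun X hX hXF => ?_, ?_⟩⟩
    · rw [← hB]
      exact hBD.1 X hX hXF
    · rw [hB]
      exact hcond X hX hXF
    · intro π hπ X hX _
      have hπeq : ∀ i, π i (-1) = π i 1 := by
        intro i
        obtain ⟨H⟩ := exists_hcoord (T i)
        refine H.co_inj ?_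
        ext k l
        rw [H.co_proj (hπ i (-1)), H.co_proj (hπ i 1), hp]
      refine Finset.sum_eq_zero fun i _ => ?_
      rw [units', hπeq, ha, hd]
      push_cast
      ring

theorem rank_part [Fintype ι] (T : ι → PMot ℚ ℂ) (J K : Set (MvPolynomial (Co (ranks T)) ℚ))
    (h : IsPeriodGroup T J K) (p : ι → ℤˣ → ℤ) (b : ∀ i s, Bases (T i) s (p i s)) (S : Finset ((ι × ℤˣ) ⊕ ι))
    (hS : rank T J < S.card) :
    ∃ (a : ι → ℤˣ → ℤ) (d : ι → ℤ), (a ≠ 0 ∨ d ≠ 0) ∧ (∀ i s, Sum.inl (i, s) ∉ S → a i s = 0) ∧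
      (∀ i, Sum.inr i ∉ S → d i = 0) ∧ TraceConditions T J p a d := by
  classical
  let G : SubgroupFunctor (ranks T) := grp h.one_mem h.mul_inv_mem
  let P : TorsorFunctor (ranks T) := tor K
  have inLie_iff : ∀ X : Mats (ranks T), InLie J X ↔ X ∈ G.lie := by
    intro X
    constructor
    · intro h
      exact h (ogs X) fun i => rfl
    · intro h g hg
      have : g = ogs X := by
        funext i
        apply Units.ext
        exact hg i
      rw [this]
      exact h
  have h' : IsGrp T G P :=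
    ⟨h.torsor, h.comparison _ fun i => rfl, fun A _ _ g hg => h.frobenius A _ (fun i => rfl) g hg, h.cocharacter⟩
  have hclG : IsClosedQ (N := ranks T) fun A _ _ => (G.pts A : Set (GLs (ranks T) A)) := ⟨J, fun A _ _ g => Iff.rfl⟩
  have hV : ∀ X : Mats (rks T), X ∈ VV G ↔ InLie J X ∧ CommutesWithFrobenius T X := fun X =>
    (and_congr (inLie_iff X) Iff.rfl).symm
  have hW : ∀ X : Mats (rks T), X ∈ LL G ↔ InLie J X ∧ PreservesHodge T X := fun X =>
    (and_congr (inLie_iff X) Iff.rfl).symm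
  obtain ⟨π, hπ⟩ : ∃ π : ∀ i, ℤˣ → Matrix (Fin (T i).N) (Fin (T i).N) ℂ, ∀ i s, IsLowProj (T i) (p i s) (π i s) := by
    choose π hπ using fun i (s : ℤˣ) => exists_lowProj (T i) (p i s)
    exact ⟨π, hπ⟩
  obtain ⟨w, hw0, hw1, hw2, hw3⟩ := exists_relation h' hclG p π hπ (fun i s => (b i s).injective)
    (fun i s => (b i s).range) (fun i s => (b i s).surjective) (fun i s => (b i s).ker)
    (Submodule.span ℂ {X : Mats (rks T) | InLie J X ∧ (CommutesWithFrobenius T X ∨ PreservesHodge T X)})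
    (Submodule.span ℂ {Z : Mats (rks T) | ∃ X Y, InLie J X ∧ InLie J Y ∧
      (CommutesWithFrobenius T X ∧ CommutesWithFrobenius T Y ∨ PreservesHodge T X ∧ PreservesHodge T Y) ∧
      Z = fun i => X i * Y i - Y i * X i})
    (by
      refine Submodule.span_mono ?_
      rintro Z ⟨X, Y, hX, hY, hXY, rfl⟩
      rcases hXY with ⟨h1, h2⟩ | ⟨h1, h2⟩
      · have h3 := comm_mem_VV hclG ((hV X).2 ⟨hX, h1⟩) ((hV Y).2 ⟨hY, h2⟩)
        exact ⟨((hV _).1 h3).1, Or.inl ((hV _).1 h3).2⟩
      · have h3 := comm_mem_LL hclG ((hW X).2 ⟨hX, h1⟩) ((hW Y).2 ⟨hY, h2⟩)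
        exact ⟨((hW _).1 h3).1, Or.inr ((hW _).1 h3).2⟩)
    (fun X hX => Submodule.subset_span ⟨((hV X).1 hX).1, Or.inl ((hV X).1 hX).2⟩)
    (fun X hX => Submodule.subset_span ⟨((hW X).1 hX).1, Or.inr ((hW X).1 hX).2⟩)
    (by
      refine Submodule.span_mono ?_
      rintro Z ⟨X, Y, hX, hY, hXY, rfl⟩
      refine ⟨X, Y, ?_, rfl⟩
      rcases hXY with ⟨h1, h2⟩ | ⟨h1, h2⟩
      · exact Or.inl ⟨(hV X).2 ⟨hX, h1⟩, (hV Y).2 ⟨hY, h2⟩⟩
      · exact Or.inr ⟨(hW X).2 ⟨hX, h1⟩, (hW Y).2 ⟨hY, h2⟩⟩) S hS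
  refine ⟨fun i s => w (Sum.inl (i, s)), fun i => w (Sum.inr i), ?_, fun i s hs => hw1 _ hs, fun i hi => hw1 _ hi,
    fun X hX hXF => hw2 X ⟨(inLie_iff X).1 hX, hXF⟩, fun π' hπ' X hX hXH => ?_⟩
  · by_contra hcon
    rw [not_or, not_not, not_not] at hcon
    refine hw0 ?_
    funext s
    rcases s with ⟨i, s⟩ | i
    · exact congrFun (congrFun hcon.1 i) s
    · exact congrFun hcon.2 i
  · have hππ : ∀ i s, π' i s = π i s := by
      intro i s
      obtain ⟨H⟩ := exists_hcoord (T i)
      refine H.co_inj ?_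
      ext k l
      rw [H.co_proj (hπ' i s), H.co_proj (hπ i s)]
    rw [← hw3 X ⟨(inLie_iff X).1 hX, hXH⟩]
    simp only [hππ]

theorem TraceConditions.neg [Fintype ι] {T : ι → PMot ℚ ℂ} {J : Set (MvPolynomial (Co (ranks T)) ℚ)}
    {p : ι → ℤˣ → ℤ} {a : ι → ℤˣ → ℤ} {d : ι → ℤ} (h : TraceConditions T J p a d) :
    TraceConditions T J p (-a) (-d) := by
  refine ⟨fun X hX hXF => ?_, fun π hπ X hX hXH => ?_⟩
  · rw [← neg_eq_zero, ← h.1 X hX hXF, ← Finset.sum_neg_distrib]
    refine Finset.sum_congr rfl fun i _ => ?_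
    rw [neg_add, ← Finset.sum_neg_distrib]
    congr 1
    · refine Finset.sum_congr rfl fun s _ => ?_
      rw [Pi.neg_apply, Pi.neg_apply, Int.cast_neg]
      ring
    · rw [Pi.neg_apply, Int.cast_neg]
      ring
  · rw [← neg_eq_zero, ← h.2 π hπ X hX hXH, ← Finset.sum_neg_distrib]
    refine Finset.sum_congr rfl fun i _ => ?_
    rw [neg_add, ← Finset.sum_neg_distrib]
    congr 1
    · refine Finset.sum_congr rfl fun s _ => ?_
      rw [Pi.neg_apply, Pi.neg_apply, Int.cast_neg]
      ring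
    · rw [Pi.neg_apply, Int.cast_neg]
      ring

theorem basis_part [Fintype ι] (T : ι → PMot ℚ ℂ) (J K : Set (MvPolynomial (Co (ranks T)) ℚ))
    (h : IsPeriodGroup T J K) (p : ι → ℤˣ → ℤ) (b : ∀ i s, Bases (T i) s (p i s))
    (hirr : IsUnionOfIrreducible (Points J ℂ) 1) :
    ∃ I : Finset ι, I.card ≤ rank T J ∧ ∀ i, i ∉ I →
      ∃ (n : ℕ) (a : ι → ℤ), 0 < n ∧ ∀ L : ι → ℂ,
        (∀ j ∈ I, L j ≠ 0 ∧ ∃ e : ℚ, L j = e * (b j 1).period (T j).P) →
        ((∃ e : ℚ, (L i / (b i 1).period (T i).P) ^ n = e) ↔ ∃ e : ℚ, L i ^ n * ∏ j ∈ I, L j ^ a j = e) := by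
  classical
  let Free : Finset ι → Prop := fun I => ∀ a : ι → ℤˣ → ℤ, (∀ i, a i (-1) = 0) → (∀ i, i ∉ I → a i 1 = 0) →
    TraceConditions T J p a 0 → ∀ i, a i 1 = 0
  have hFree0 : Free ∅ := fun a _ ha _ i => ha i (Finset.notMem_empty i)
  have hcard : ∀ I, Free I → I.card ≤ rank T J := by
    intro I hI
    by_contra hlt
    rw [not_le] at hlt
    have hinj : Function.Injective fun i : ι => (Sum.inl (i, 1) : (ι × ℤˣ) ⊕ ι) := by
      intro i j hij
      exact (Prod.mk.inj (Sum.inl_injective hij)).1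
    obtain ⟨a, d, hne, ha, hd, htr⟩ := rank_part T J K h p b (I.image fun i => Sum.inl (i, 1)) (by
      rwa [Finset.card_image_of_injective _ hinj])
    have hd0 : d = 0 := by
      funext i
      refine hd i fun hi => ?_
      rw [Finset.mem_image] at hi
      obtain ⟨j, _, hj⟩ := hi
      exact absurd hj (by simp)
    have ha1 : ∀ i, a i (-1) = 0 := by
      intro i
      refine ha i (-1) fun hi => ?_
      rw [Finset.mem_image] at hi
      obtain ⟨j, _, hj⟩ := hi
      have h2 := (Prod.mk.inj (Sum.inl_injective hj)).2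
      exact absurd h2 (by decide)
    have ha2 : ∀ i, i ∉ I → a i 1 = 0 := by
      intro i hi
      refine ha i 1 fun hi' => ?_
      rw [Finset.mem_image] at hi'
      obtain ⟨j, hj, hj'⟩ := hi'
      have h2 := (Prod.mk.inj (Sum.inl_injective hj')).1
      exact hi (h2 ▸ hj)
    rw [hd0] at htr hne
    rcases hne with hne | hne
    · refine hne ?_
      funext i s
      rcases Int.units_eq_one_or s with rfl | rfl
      · exact hI a ha1 ha2 htr i
      · exact ha1 i
    · exact hne rfl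
  obtain ⟨I, hI, hmax⟩ : ∃ I, Free I ∧ ∀ I', Free I' → I'.card ≤ I.card := by
    obtain ⟨I, hI, hmax⟩ := Finset.exists_max_image (Finset.univ.filter fun I : Finset ι => Free I) Finset.card
      ⟨∅, Finset.mem_filter.2 ⟨Finset.mem_univ _, hFree0⟩⟩
    exact ⟨I, (Finset.mem_filter.1 hI).2, fun I' hI' => hmax I' (Finset.mem_filter.2 ⟨Finset.mem_univ _, hI'⟩)⟩
  refine ⟨I, hcard I hI, fun i hi => ?_⟩
  have hnot : ¬ Free (insert i I) := by
    intro hF
    have := hmax _ hF
    rw [Finset.card_insert_of_notMem hi] at this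
    omega
  have hex : ∃ a : ι → ℤˣ → ℤ, (∀ j, a j (-1) = 0) ∧ (∀ j, j ∉ insert i I → a j 1 = 0) ∧
      TraceConditions T J p a 0 ∧ 0 < a i 1 := by
    simp only [Free, not_forall] at hnot
    obtain ⟨a, ha1, ha2, htr, j, hj⟩ := hnot
    have hai : a i 1 ≠ 0 := by
      intro h0
      refine hj (hI a ha1 (fun k hk => ?_) htr j)
      by_cases hki : k = i
      · rw [hki, h0]
      · exact ha2 k fun hk' => (Finset.mem_insert.1 hk').elim hki hk
    rcases lt_or_gt_of_ne hai with hlt | hgt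
    · refine ⟨-a, fun k => ?_, fun k hk => ?_, ?_, ?_⟩
      · rw [Pi.neg_apply, Pi.neg_apply, ha1, neg_zero]
      · rw [Pi.neg_apply, Pi.neg_apply, ha2 k hk, neg_zero]
      · have := htr.neg
        rwa [neg_zero] at this
      · rw [Pi.neg_apply, Pi.neg_apply]
        omega
    · exact ⟨a, ha1, ha2, htr, hgt⟩
  obtain ⟨a, ha1, ha2, htr, hpos⟩ := hex
  refine ⟨(a i 1).toNat, fun j => a j 1, by omega, fun L hL => ?_⟩
  have hn : ((a i 1).toNat : ℤ) = a i 1 := Int.toNat_of_nonneg hpos.le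
  obtain ⟨hne, _, _, _, h4, _⟩ := parts T J K h p b a 0
  set L' : ι → ℂ := fun j => if j ∈ insert i I then L j else (b j 1).period (T j).P with hL'
  have hLi : L' i = L i := if_pos (Finset.mem_insert_self i I)
  have hLI : ∀ j ∈ I, L' j = L j := fun j hj => if_pos (Finset.mem_insert_of_mem hj)
  have h5 := h4 hirr htr ha1 (fun _ => rfl) i L' (fun j hj => by
    by_cases hjI : j ∈ I
    · rw [hLI j hjI]
      exact hL j hjI
    · have h6 : L' j = (b j 1).period (T j).P := if_neg fun h7 => (Finset.mem_insert.1 h7).elim hj hjI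
      rw [h6]
      exact ⟨hne j 1, 1, by rw [Rat.cast_one, one_mul]⟩)
  have h6 : ∏ j, L' j ^ a j 1 = L i ^ (a i 1).toNat * ∏ j ∈ I, L j ^ a j 1 := by
    rw [← Finset.prod_subset (Finset.subset_univ (insert i I)) (fun j _ hj => by
      rw [ha2 j hj, _root_.zpow_zero]), Finset.prod_insert hi, hLi]
    congr 1
    · nth_rewrite 1 [← hn]
      exact zpow_natCast _ _
    · exact Finset.prod_congr rfl fun j hj => by rw [hLI j hj]
  have h7 : (L' i / (b i 1).period (T i).P) ^ a i 1 = (L i / (b i 1).period (T i).P) ^ (a i 1).toNat := by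
    rw [hLi]
    nth_rewrite 1 [← hn]
    exact zpow_natCast _ _
  rwa [h6, h7] at h5

/-- **The multiplicative relations between Deligne's periods.** -/
theorem result [Fintype ι] (T : ι → PMot ℚ ℂ) (J K : Set (MvPolynomial (Co (ranks T)) ℚ)) (h : IsPeriodGroup T J K)
    (p : ι → ℤˣ → ℤ) (b : ∀ i s, Bases (T i) s (p i s)) :
    (∀ i s, (b i s).period (T i).P ≠ 0) ∧
    (∀ (a : ι → ℤˣ → ℤ) (d : ι → ℤ),
      (TraceConditions T J p a d →
        IsAlgebraic ℚ (monomial b a d fun i => (T i).P) ∧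
        (∀ n, IsUnionOfIrreducible (Points J ℂ) n → (minpoly ℚ (monomial b a d fun i => (T i).P)).natDegree ≤ n) ∧
        (IsConn J → IsRat (monomial b a d fun i => (T i).P))) ∧
      (IsConn J → (TraceConditions T J p a d ↔
        ∃ q : ℚ, ∀ g ∈ Points K ℂ, (∀ i s, (b i s).period (g i) ≠ 0) → (monomial b a d fun i => g i) = q)) ∧
      (IsGeneric T K → (TraceConditions T J p a d ↔ IsAlgebraic ℚ (monomial b a d fun i => (T i).P))) ∧
      (IsConn J → TraceConditions T J p a d → (∀ i, a i (-1) = 0) → (∀ i, d i = 0) →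
        ∀ i₀ L, (∀ i, i ≠ i₀ → DeligneHolds b L i) →
          (IsRat ((L i₀ / cPlus b i₀) ^ a i₀ 1) ↔ IsRat (∏ i, L i ^ a i 1))) ∧
      ((∀ i, p i (-1) = p i 1) → (∀ i, a i (-1) = -a i 1) → (∀ i, d i = 0) →
        (TraceConditions T J p a d ↔ ∀ X, InLie J X → CommutesWithFrobenius T X →
          ∑ i, a i 1 * ((T i).F.map (algebraMap ℚ ℂ) * X i).trace = 0))) ∧
    (∀ S : Finset ((ι × ℤˣ) ⊕ ι), rank T J < S.card →
      ∃ (a : ι → ℤˣ → ℤ) (d : ι → ℤ), (a ≠ 0 ∨ d ≠ 0) ∧ (∀ i s, Sum.inl (i, s) ∉ S → a i s = 0) ∧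
        (∀ i, Sum.inr i ∉ S → d i = 0) ∧ TraceConditions T J p a d) ∧
    (IsConn J → ∃ I : Finset ι, I.card ≤ rank T J ∧ ∀ i, i ∉ I → ∃ (n : ℕ) (a : ι → ℤ), 0 < n ∧
      ∀ L : ι → ℂ, (∀ j ∈ I, DeligneHolds b L j) →
        (IsRat ((L i / cPlus b i) ^ n) ↔ IsRat (L i ^ n * ∏ j ∈ I, L j ^ a j))) :=
  ⟨(parts T J K h p b 0 0).1, fun a d => (parts T J K h p b a d).2, rank_part T J K h p b,
    basis_part T J K h p b⟩

end Pool.Agent.Results.MP_b696eb_nt.MonomialRelations
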