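import Pool.Agent.H97.NF.Final

set_option autoImplicit false

/-! # Deligne's periods of motives built from motives over number fields: the ratio `c⁺ / c⁻`

Let `M_i` be finitely many pure motives with rational coefficients over number fields `K_i`, with arbitrary Hodge
numbers. For an embedding `σ` of `K_i` in `ℂ` let `V_{i,σ}` be the Betti realisation of `M_i` at `σ`, a rational vector
space, and `F_σ : V_{i,σ} → V_{i,σ̄}` the map given by complex conjugation. Let `G = ∏_i ∏_σ GL(V_{i,σ})`, an algebraic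
group over `ℚ`, and let `T` be a motive over `ℚ` without middle Hodge classes that is built from the `M_i` by an
algebraic representation `ρ` of `G`: the Betti realisation of `T` is the space of `ρ`, conjugation by the involution
`F_∞` of `T` is compatible with conjugation by the `F_σ` (which permutes the factors of `G`), and `ρ(g)` preserves the
Hodge decomposition of `T` if `g` preserves those of all `V_{i,σ} ⊗ ℂ`. Examples are all motives obtained from
restrictions of scalars `Res_{K/ℚ} M` by tensor constructions, and the TENSOR INDUCTION of `M` (Asai motives), which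
is not given by a representation of `GL(Res_{K/ℚ} M)`; and all of them may be twisted by motives over `ℚ` (which may
be taken among the `M_i`, or may be hidden in `F_∞` of `T`).

Let `S` be a set of embeddings, stable under complex conjugation, such that `ρ` is odd with respect to `S`, that is,
the element `-1` at the embeddings in `S` and `1` elsewhere acts as `-1` on `T`; the `M_i` have no middle classes at
the embeddings in `S` (outside `S` everything is allowed). We show that modulo `ℚˣ`
`c^±(T) / c^∓(T) = ∏_v (c^±(M_v) / c^∓(M_v)) ^ k_v`, the product over the REAL places `v` in `S` only, and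
`k_v rank(M_v) = tr (F_∞ dρ(F_v))`, the trace on `T_B` of `F_∞` times the image of `F_v ∈ End(V_v)` under the
derivative of `ρ`. So the complex places of the fields `K_i` contribute nothing. Here the periods `c^+(M_v)` and
`c^-(M_v)` at a real place are computed in the same basis of `M_DR / F^±` over `K`, and then their quotient is well
defined modulo `ℚˣ`, although the periods are only defined modulo `Kˣ`. Moreover `k_v = 0` whenever there is another
such set `S'` that does not contain `v`. Therefore `c⁺(T) / c⁻(T)` is RATIONAL if `S` and `S'` have no real place in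
common, in particular if `S` contains no real place, or if `T` is (a twist without middle classes of) the tensor
induction to `ℚ` of a motive `M` without middle classes over a number field with at least two real places (`S = {v}`,
`S' = {v'}`). For the values of `L(T, s)` at critical integers `m` and `m'` of different parity Deligne's conjecture
thus predicts a quotient which is `(2πi)^((m - m') dim T⁺)` times the product above (or its inverse) and a rational
number, and if Deligne's formula is true at `m'` (with a nonzero value), it is true at `m` if and only if this holds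
(`Transfer`).

For `K = ℚ` and a single motive `M` this is `PeriodsOfRepresentations`. The proof: let `J_S` be the operator
`sign(p - q)` at the embeddings in `S` and the identity elsewhere. It is multiplied by `-1` at the embeddings in `S`
under conjugation by `F_∞`, so `ρ(J_S)` anticommutes with `F_∞`, and it commutes with the operator `J_T` of `T`; so
`ρ(J_S) J_T` is an involution of `T⁺` with determinant `± 1`, and `c⁺(T) / c⁻(T)` is the determinant of
`ρ(J_S) : T⁺ → T⁻` in rational bases. One place after the other `J_S` is made rational by conjugation with elements of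
`G^{F_∞}(ℂ)`: at a real place with an element of `GL(V_v⁻)` of determinant `c⁺(M_v) / c⁻(M_v)`, at a pair of complex
places with an element of `GL(V_σ)`. This changes the determinant by the value of a character, which is a power of the
determinant; for complex places the exponent vanishes, because scalars at `σ` and `σ̄` are central in `G`. -/

namespace Pool.Agent.Results.MP_b696eb_nt.PeriodsOverNumberFields

open Matrix Pool.Agent.X33.DP Pool.Agent.X33.DP.PMot Pool.Agent.X274.PR Pool.Agent.H97.NF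

variable {ι : Type} {K : ι → Type} [∀ i, Field (K i)]

/-- the matrix `ρ(g)` -/
def mat {ι : Type} {E : ι → Type} {N : ι → ℕ} {r : ℕ} (ρ : ProdRep E N r) (A : Type) [CommRing A] [Algebra ℚ A]
    (g : Pts E N A) : Matrix (Fin r) (Fin r) A := (ρ.map A g : Matrix (Fin r) (Fin r) A)

/-- `F_σ : V_σ → V_σ̄` as an element of `GL_N(ℚ)`, with the inverse `F_σ̄` -/
def frobGL {K : Type} [Field K] (M : NFMot K) (σ : K →+* ℂ) : GL (Fin M.N) ℚ :=
  ⟨M.F σ, M.F (bar σ), M.F_bar' σ, M.F_bar σ⟩

/-- the conjugate `F_∞⁻¹ g F_∞` of a family `g = (g_{i,σ})`, that is, the family `(F_σ⁻¹ g_{i,σ̄} F_σ)` -/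
def conjFrob (M : ∀ i, NFMot (K i)) (A : Type) [CommRing A] [Algebra ℚ A]
    (g : Pts (fun i => K i →+* ℂ) (fun i => (M i).N) A) : Pts (fun i => K i →+* ℂ) (fun i => (M i).N) A :=
  fun i σ => Matrix.GeneralLinearGroup.map (algebraMap ℚ A) (frobGL (M i) (bar σ)) * g i (bar σ) *
    Matrix.GeneralLinearGroup.map (algebraMap ℚ A) (frobGL (M i) σ)

/-- `T` is built from the motives `M_i` by the representation `ρ` of `∏_i ∏_σ GL(V_{i,σ})`. -/
structure IsConstruction (M : ∀ i, NFMot (K i)) (T : PMot ℚ ℂ)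
    (ρ : ProdRep (fun i => K i →+* ℂ) (fun i => (M i).N) T.N) : Prop where
  /-- conjugation by `F_∞` on `T` corresponds to conjugation by `F_∞` on the `V_{i,σ}` -/
  frob : ∀ (A : Type) [CommRing A] [Algebra ℚ A] (g : Pts (fun i => K i →+* ℂ) (fun i => (M i).N) A),
    T.F.map (algebraMap ℚ A) * mat ρ A g = mat ρ A (conjFrob M A g) * T.F.map (algebraMap ℚ A)
  /-- if `g` preserves the Hodge decompositions of the `V_{i,σ} ⊗ ℂ`, then `ρ(g)` preserves that of `T_B ⊗ ℂ` -/
  hodge : ∀ g : Pts (fun i => K i →+* ℂ) (fun i => (M i).N) ℂ,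
    (∀ i σ p, ∀ x ∈ (M i).H σ p, (g i σ : Matrix (Fin (M i).N) (Fin (M i).N) ℂ).mulVec x ∈ (M i).H σ p) →
    ∀ p, ∀ y ∈ T.H p, (mat ρ ℂ g).mulVec y ∈ T.H p

open Classical in
/-- `-1` at the embeddings in `S` and `1` at the other embeddings -/
noncomputable def signs (M : ∀ i, NFMot (K i)) (S : ∀ i, Set (K i →+* ℂ)) :
    Pts (fun i => K i →+* ℂ) (fun i => (M i).N) ℚ :=
  fun i σ => if σ ∈ S i then -1 else 1

/-- `S` is a set of embeddings, stable under complex conjugation, such that the `M_i` have no middle classes at the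
embeddings in `S` and `ρ` is odd with respect to `S`. -/
structure IsOddSet (M : ∀ i, NFMot (K i)) {r : ℕ} (ρ : ProdRep (fun i => K i →+* ℂ) (fun i => (M i).N) r)
    (S : ∀ i, Set (K i →+* ℂ)) : Prop where
  stable : ∀ i σ, bar σ ∈ S i ↔ σ ∈ S i
  noMiddle : ∀ i, ∀ σ ∈ S i, (M i).NoMiddle σ
  odd : ρ.map ℚ (signs M S) = -1

/-- Deligne's formula for the value `y` of `L(T, s)` at the integer `m`: `y` is a rational multiple of
`(2πi)^(m d) c^±(T)`, where `± = (-1)^m` and `d = dim T^±`. -/
def DeligneFormula (T : PMot ℚ ℂ) (m : ℤ) (y : ℂ) : Prop :=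
  ∀ t, T.IsPeriod ((-1) ^ m) t →
    ∃ e : ℚ, y = (e : ℂ) * ((2 * (Real.pi : ℂ) * Complex.I) ^ (m * T.dim ((-1) ^ m)) * t)

/-- The periods `c^±(T)` exist and are not zero. -/
def NonzeroPeriods (T : PMot ℚ ℂ) : Prop :=
  ∀ s : ℤˣ, (∃ c, T.IsPeriod s c) ∧ ∀ c, T.IsPeriod s c → c ≠ 0

/-- The periods `c^±(M_v)` at the real place `v` exist and are not zero. -/
def NonzeroPeriodsAt {K : Type} [Field K] (M : NFMot K) (v : K →+* ℂ) : Prop :=
  (∃ c c', M.IsPeriods v c c') ∧ ∀ c c', M.IsPeriods v c c' → c ≠ 0 ∧ c' ≠ 0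

/-- `c i v` and `c' i v` are the periods `c^+` and `c^-` of `M_i` at all real places `v` in `S`. -/
def ArePeriods (M : ∀ i, NFMot (K i)) (S : ∀ i, Set (K i →+* ℂ)) (c c' : ∀ i, (K i →+* ℂ) → ℂ) : Prop :=
  ∀ i v, bar v = v → v ∈ S i → (M i).IsPeriods v (c i v) (c' i v)

section finite

variable [Fintype ι] [∀ i, NumberField (K i)]

open Classical in
/-- the product of `(c_v / c'_v) ^ k_v` over the real places `v` in `S` -/
noncomputable def realProduct (S : ∀ i, Set (K i →+* ℂ)) (k : ∀ i, (K i →+* ℂ) → ℤ)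
    (c c' : ∀ i, (K i →+* ℂ) → ℂ) : ℂ :=
  ∏ i, ∏ v ∈ Finset.univ.filter (fun v : K i →+* ℂ => bar v = v ∧ v ∈ S i), (c i v / c' i v) ^ k i v

/-- `c^+(T) / c^-(T)` is the product over the real places `v` in `S` of `(c^+(M_v) / c^-(M_v)) ^ k_v`, up to a nonzero
rational number. -/
def RatioFormula (M : ∀ i, NFMot (K i)) (T : PMot ℚ ℂ) (S : ∀ i, Set (K i →+* ℂ)) (k : ∀ i, (K i →+* ℂ) → ℤ) :
    Prop :=
  ∀ c c', ArePeriods M S c c' → ∀ t t' : ℂ, T.IsPeriod 1 t → T.IsPeriod (-1) t' →
    ∃ e : ℚ, e ≠ 0 ∧ t / t' = (e : ℂ) * realProduct S k c c'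

/-- If Deligne's formula for `T` holds for `y' ≠ 0` at `m'`, then at an integer `m` of the other parity Deligne's
formula for `y` is equivalent to `y = e (2πi)^((m - m') dim T⁺) y' R^{±1}`, `± = (-1)^m`, with `e` in `ℚ` and the
product `R` of the `(c^+(M_v) / c^-(M_v)) ^ k_v`. -/
def Transfer (M : ∀ i, NFMot (K i)) (T : PMot ℚ ℂ) (S : ∀ i, Set (K i →+* ℂ)) (k : ∀ i, (K i →+* ℂ) → ℤ) : Prop :=
  ∀ c c', ArePeriods M S c c' → ∀ (m m' : ℤ) (y y' : ℂ), ((-1 : ℤˣ) ^ m') = -(-1) ^ m → y' ≠ 0 →
    DeligneFormula T m' y' →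
    (DeligneFormula T m y ↔ ∃ e : ℚ, y = (e : ℂ) *
      ((2 * (Real.pi : ℂ) * Complex.I) ^ ((m - m') * T.dim 1) * y' *
        realProduct S k c c' ^ (((-1 : ℤˣ) ^ m : ℤˣ) : ℤ)))

end finite

/-- `c^+(T) / c^-(T)` is rational. -/
def RatioRational (T : PMot ℚ ℂ) : Prop :=
  ∀ t t' : ℂ, T.IsPeriod 1 t → T.IsPeriod (-1) t' → ∃ e : ℚ, e ≠ 0 ∧ t / t' = (e : ℂ)

/-- **The periods of motives built from motives over number fields.** -/
theorem result {ι : Type} [Fintype ι] [DecidableEq ι] {K : ι → Type} [∀ i, Field (K i)] [∀ i, NumberField (K i)]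
    [∀ i, DecidableEq (K i →+* ℂ)] (M : ∀ i, NFMot (K i)) (T : PMot ℚ ℂ)
    (ρ : ProdRep (fun i => K i →+* ℂ) (fun i => (M i).N) T.N) (h : IsConstruction M T ρ) (hT : T.NoMiddle)
    (S : ∀ i, Set (K i →+* ℂ)) (hS : IsOddSet M ρ S) :
    NonzeroPeriods T ∧ (∀ i v, bar v = v → v ∈ S i → NonzeroPeriodsAt (M i) v) ∧
    (∃ k : ∀ i, (K i →+* ℂ) → ℤ,
      (∀ i v, bar v = v → v ∈ S i → (k i v : ℚ) * (M i).N = (T.F * (ρ.at i v).der ((M i).F v)).trace) ∧
      (∀ S', IsOddSet M ρ S' → ∀ i v, bar v = v → v ∈ S i → v ∉ S' i → k i v = 0) ∧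
      RatioFormula M T S k ∧ Transfer M T S k) ∧
    ((∃ S', IsOddSet M ρ S' ∧ ∀ i v, bar v = v → v ∈ S i → v ∉ S' i) → RatioRational T) := by
  have h' : IsCon M T ρ := ⟨fun A _ _ g => Units.ext (h.frob A g), h.hodge⟩
  have hO : ∀ {S : ∀ i, Set (K i →+* ℂ)}, IsOddSet M ρ S → OddSet M ρ S := fun hS =>
    ⟨hS.stable, hS.noMiddle, hS.odd⟩
  have hO' : ∀ {S : ∀ i, Set (K i →+* ℂ)}, OddSet M ρ S → IsOddSet M ρ S := fun hS =>
    ⟨hS.stable, hS.noMiddle, hS.odd⟩
  have hex : ∀ i v, bar v = v → v ∈ S i → NonzeroPeriodsAt (M i) v := fun i v hv hvS =>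
    ⟨(M i).exists_periods hv (hS.noMiddle i v hvS), fun c c' hc => (M i).periods_ne hv (hS.noMiddle i v hvS) hc⟩
  obtain ⟨k, hk1, hk2, hk3⟩ := Pool.Agent.H97.NF.main M T ρ h' hT (hO hS)
  have hreal : ∀ c c' : ∀ i, (K i →+* ℂ) → ℂ, realProduct S k c c' =
      ∏ i, ∏ v ∈ realIn S i, (c i v / c' i v) ^ k i v := fun c c' => by
    refine Finset.prod_congr rfl fun i _ => Finset.prod_congr ?_ fun _ _ => rfl
    ext v
    simp [realIn]
  refine ⟨fun s => ⟨T.exists_isPeriod hT s, fun t ht => (isUnit_isPeriod hT ht).ne_zero⟩, hex,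
    ⟨k, hk1, fun S' hS' => hk2 S' (hO hS'), ?_, ?_⟩, ?_⟩
  · intro c c' hc t t' ht ht'
    obtain ⟨e, he, h1⟩ := hk3 c c' hc t t' ht ht'
    exact ⟨e, he, by rw [hreal, h1]⟩
  · intro c c' hc m m' y y' hm hy hf
    rw [hreal]
    exact Pool.Agent.H97.NF.transfer' hT (fun t t' ht ht' => hk3 c c' hc t t' ht ht') m m' hm hy hf
  · classical
    rintro ⟨S', hS', hd⟩ t t' ht ht'
    have hc : ∀ i v, ∃ x : ℂ × ℂ, bar v = v → v ∈ S i → (M i).IsPeriods v x.1 x.2 := by
      intro i v
      by_cases h1 : bar v = v ∧ v ∈ S i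
      · obtain ⟨c, c', hc⟩ := (hex i v h1.1 h1.2).1
        exact ⟨(c, c'), fun _ _ => hc⟩
      · exact ⟨(0, 0), fun h2 h3 => absurd ⟨h2, h3⟩ h1⟩
    choose x hx using hc
    obtain ⟨e, he, h1⟩ := hk3 (fun i v => (x i v).1) (fun i v => (x i v).2) hx t t' ht ht'
    refine ⟨e, he, ?_⟩
    rw [h1]
    have h2 : ∏ i, ∏ v ∈ realIn S i, ((x i v).1 / (x i v).2) ^ k i v = 1 := by
      refine Finset.prod_eq_one fun i _ => Finset.prod_eq_one fun v hv => ?_
      rw [realIn, Finset.mem_filter] at hv
      rw [hk2 S' (hO hS') i v hv.2.1 hv.2.2 (hd i v hv.2.1 hv.2.2), _root_.zpow_zero]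
    rw [h2, mul_one]

end Pool.Agent.Results.MP_b696eb_nt.PeriodsOverNumberFields
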