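import Pool.Agent.H15.SP.Octo

set_option autoImplicit false

/-! # Deligne's period of an orthogonal motive is a quadratic period of its spinor module

`M` is a pure motive of weight `0` over `ℚ` with rational coefficients and with an orthogonal structure, that is a
nondegenerate symmetric `b : M ⊗ M → ℚ(0)`, and it is critical (so `F_∞` is `-1` on `H^{0,0}`). The rank and the Hodge
numbers are arbitrary, also `h^{0,0}`. A spinor module of `M` is an absolutely irreducible module `S` over the Clifford
algebra of `(M, b)`, with compatible Betti and de Rham realizations `S_B`, `S_dR` and with a lift `F` of `F_∞` to `S_B`.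
(If the rank is even and `S = S⁺ ⊕ S⁻` is graded, one can change the sign of `F` on `S⁻`; so the sign in `Spinor.lift`
is no restriction for the half spin representations.) A vector `s` of `S` is extremal if it is annihilated by
`F^1 M_dR`; the extremal vectors form the smallest step of the Hodge filtration of `S`, and `F^1 M · S` is the largest
proper step. We show that on the extremal vectors `F`, taken modulo `F^1 M · S`, is Deligne's period `c⁺(M)` times a
RATIONAL operator `R`, and that it is injective. Thus `c⁺(M)` is a quadratic period of `S`: for every invariant pairing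
`β` of `S_dR` the number `β(t, F s)`, for rational extremal `s, t`, is a rational multiple of `c⁺(M)`, and for `s ≠ 0`
there is `t` for which it is not zero. So `L(M, 0) ∈ ℚ c⁺(M)`, Deligne's conjecture for `M`, is the statement that
`L(M, 0)` is a rational multiple of the Petersson norm like period `β(t, F_∞ s)` of another motive, the one of the
spinor representation.

As an application we determine `c⁺(M)` for the motives of rank `7` and weight `0` whose structure group is the
exceptional group `G₂` (`h^{0,0} = 1`): if `ω` generates the smallest step of the Hodge filtration of `M_dR`, then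
`c⁺(M)` is a rational multiple of `b(ω, F_∞ ω)`, and Deligne's conjecture for `M` says `L(M, 0) ∈ ℚ b(ω, F_∞ ω)`. Here
`S` is the space of the octonions.

Proof. Let `K = F^1 M`, `m = dim K = d⁺`. The product `γ = e₁ ⋯ e_m` of an orthogonal basis of `M_B⁺` in the Clifford
algebra lifts `F_∞`, so `F = κ γ` with `κ ∈ ℚˣ` by Schur's lemma. For an extremal vector `s` products `x₁ ⋯ x_k s` with
`k < m` are in `K S`; hence `x₁ ⋯ x_m s` modulo `K S` is alternating in the `x_i` and vanishes if some `x_i` is in the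
orthogonal complement `F^0 M` of `K`. So it is a determinant, and for `x_i = e_i` the determinant is `c⁺(M)`. -/

namespace Pool.Agent.Results.MP_b696eb_nt.SpinorPeriods

open Module Pool.Agent.H15.SP

/-- `y` is a rational multiple of `c` -/
def RatMul (y c : ℂ) : Prop := ∃ q : ℚ, y = q * c

/-- **The period `c⁺` of orthogonal motives and of motives of type `G₂`.** -/
theorem result :
    (∀ (U S : Type) [AddCommGroup U] [Module ℂ U] [Module ℚ U] [IsScalarTower ℚ ℂ U] [FiniteDimensional ℂ U]
      [AddCommGroup S] [Module ℂ S] [Module ℚ S] (M : Mot U) (b : LinearMap.BilinForm ℂ U) (T : Spinor M b S),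
      IsOrth M b → M.Critical →
        (∃ c, M.IsPeriod 1 c) ∧ (∃ s ∈ T.D, s ≠ 0 ∧ T.Extremal s) ∧
        ∀ c, M.IsPeriod 1 c → c ≠ 0 ∧
          (∃ R : Module.End ℂ S, (∀ s ∈ T.D, R s ∈ T.D) ∧
            ∀ s, T.Extremal s → T.F s - c • R s ∈ T.img ∧ (s ≠ 0 → T.F s ∉ T.img)) ∧
          ∀ β : S →ₗ[ℂ] S →ₗ[ℂ] ℂ, T.IsPairing β → ∀ s ∈ T.D, T.Extremal s →
            (∀ t ∈ T.D, T.Extremal t → RatMul (β t (T.F s)) c) ∧
            (s ≠ 0 → ∃ t ∈ T.D, T.Extremal t ∧ β t (T.F s) ≠ 0 ∧
              ∀ y : ℂ, RatMul y c ↔ RatMul y (β t (T.F s)))) ∧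
    (∀ (U : Type) [AddCommGroup U] [Module ℂ U] [Module ℚ U] [IsScalarTower ℚ ℂ U] [FiniteDimensional ℂ U]
      (M : Mot U) (b : LinearMap.BilinForm ℂ U) (m : U →ₗ[ℂ] U →ₗ[ℂ] U),
      IsCross M b m → M.Critical → finrank ℂ (M.H 0) = 1 →
        ∀ ω ∈ M.D, ω ≠ 0 → ∀ p : ℤ, M.fil p = Submodule.span ℂ {ω} →
          (∃ c, M.IsPeriod 1 c) ∧ ∀ c, M.IsPeriod 1 c →
            (∃ q : ℚ, q ≠ 0 ∧ b ω (M.F ω) = q * c) ∧
            ∀ y : ℂ, RatMul y c ↔ RatMul y (b ω (M.F ω))) := by
  have hiff : ∀ (c d : ℂ) (q : ℚ), q ≠ 0 → d = q * c → ∀ y : ℂ, RatMul y c ↔ RatMul y d := by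
    rintro c d q hq rfl y
    have hq' : (q : ℂ) ≠ 0 := by exact_mod_cast hq
    constructor
    · rintro ⟨r, rfl⟩
      exact ⟨r / q, by push_cast; field_simp⟩
    · rintro ⟨r, rfl⟩
      exact ⟨r * q, by push_cast; ring⟩
  constructor
  · intro U S _ _ _ _ _ _ _ _ M b T hb hM
    have hcr : Crit M := Crit.of M hb.weight hM
    refine ⟨exists_period hcr, exists_extremal hb T, ?_⟩
    intro c hc
    obtain ⟨R, hR, hRF⟩ := main_formula hb hcr T hc
    have hinj : Function.Injective T.F := T.F_inj hb
    have hns : ∀ s, T.Extremal s → s ≠ 0 → T.F s ∉ T.img := by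
      intro s hs hs0 hmem
      have h1 := T.nonvanishing hb hcr hs hmem
      exact hs0 (hinj (by rw [h1, map_zero]))
    refine ⟨period_ne_zero hcr hc, ⟨R, hR, fun s hs => ⟨hRF s hs, hns s hs⟩⟩, ?_⟩
    intro β hβ s hs hsT
    have hval : ∀ t ∈ T.D, T.Extremal t → RatMul (β t (T.F s)) c := by
      intro t ht htT
      have h1 := pairing_img hβ htT (hRF s hsT)
      obtain ⟨q, hq⟩ := hβ.rat t ht (R s) (hR s hs)
      rw [map_sub, map_smul, hq, smul_eq_mul, sub_eq_zero] at h1
      exact ⟨q, by rw [h1, mul_comm]⟩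
    refine ⟨hval, fun hs0 => ?_⟩
    obtain ⟨t, ht, htT, hne⟩ := pairing_exists hβ (hns s hsT hs0)
    obtain ⟨q, hq⟩ := hval t ht htT
    refine ⟨t, ht, htT, hne, hiff c _ q ?_ hq⟩
    rintro rfl
    exact hne (by rw [hq]; simp)
  · intro U _ _ _ _ _ M b m h hM h0 ω hω hω0 p hp
    refine ⟨exists_period (Crit.of M h.orth.weight hM), fun c hc => ?_⟩
    obtain ⟨q, hq, e⟩ := g2_period h hM h0 hω hω0 hp hc
    exact ⟨⟨q, hq, e⟩, hiff c _ q hq e⟩

end Pool.Agent.Results.MP_b696eb_nt.SpinorPeriods
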